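import Mathlib
import Pool.Agent.T6.H7.PF.Defs

set_option autoImplicit false

/-!
Project PF (MP_86f7a7_co), module R1: the number of integer points of norm at most `ρ` at
distance at most `δ` from a subspace.
-/

namespace Pool.Agent.T6.H49.PF

open MeasureTheory Pool.Agent.T6.H7.PF
open scoped BigOperators

/-- An orthonormal basis whose members of index at least `dim V` are orthogonal to `V`. -/
theorem exists_adapted {n : ℕ} (V : Submodule ℝ (E n)) :
    ∃ b : OrthonormalBasis (Fin n) ℝ (E n),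
      ∀ i : Fin n, Module.finrank ℝ V ≤ i.val → ∀ u ∈ V, inner ℝ (b i) u = 0 := by
  classical
  set d := Module.finrank ℝ V with hd
  have hdn : d ≤ n := by
    have := Submodule.finrank_le V
    rwa [finrank_euclideanSpace_fin] at this
  let u : OrthonormalBasis (Fin d) ℝ V := stdOrthonormalBasis ℝ V
  let v : Fin n → E n := fun i => if h : i.val < d then (u ⟨i.val, h⟩ : E n) else 0
  let s : Set (Fin n) := {i | i.val < d}
  have hv : Orthonormal ℝ (s.domRestrict v) := by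
    have h1 : Orthonormal ℝ (fun i : Fin d => (u i : E n)) :=
      u.orthonormal.comp_linearIsometry V.subtypeₗᵢ
    have h2 := h1.comp (fun i : s => (⟨i.1.val, i.2⟩ : Fin d)) (by
      intro a b hab
      apply Subtype.ext
      apply Fin.ext
      simpa using hab)
    convert h2 using 1
    funext i
    have hi : i.1.val < d := i.2
    simp [v, hi]
  obtain ⟨b, hb⟩ := hv.exists_orthonormalBasis_extension_of_card_eq (by simp)
  refine ⟨b, fun i hi w hw => ?_⟩
  have h3 := u.sum_repr ⟨w, hw⟩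
  have h4 : w = ∑ j : Fin d, (u.repr ⟨w, hw⟩) j • b ⟨j.val, lt_of_lt_of_le j.2 hdn⟩ := by
    have h5 := congrArg (fun z : V => (z : E n)) h3
    simp only [Submodule.coe_sum, Submodule.coe_smul] at h5
    refine h5.symm.trans (Finset.sum_congr rfl fun j _ => ?_)
    have h6 : b ⟨j.val, lt_of_lt_of_le j.2 hdn⟩ = v ⟨j.val, lt_of_lt_of_le j.2 hdn⟩ :=
      hb _ (by simp [s])
    rw [h6]
    have hj : j.val < d := j.2
    simp only [v, hj, dif_pos]
  rw [h4, inner_sum]
  refine Finset.sum_eq_zero fun j _ => ?_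
  rw [inner_smul_right]
  have hne : i ≠ ⟨j.val, lt_of_lt_of_le j.2 hdn⟩ := by
    intro h
    have : i.val = j.val := congrArg Fin.val h
    have hj : j.val < d := j.2
    omega
  rw [b.orthonormal.2 hne, mul_zero]

/-- The scale of the `i`-th coordinate. -/
noncomputable def sc {n : ℕ} (d : ℕ) (ρ δ : ℝ) (i : Fin n) : ℝ := if i.val < d then ρ else δ

/-- The quadratic form. -/
noncomputable def qf {n : ℕ} (b : OrthonormalBasis (Fin n) ℝ (E n)) (c : Fin n → ℝ) (z : E n) : ℝ :=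
  ∑ i, (inner ℝ (b i) z / c i) ^ 2

/-- The Gaussian weight. -/
noncomputable def gw {n : ℕ} (b : OrthonormalBasis (Fin n) ℝ (E n)) (c : Fin n → ℝ) (z : E n) : ℝ :=
  Real.exp (-((n : ℝ) / 2) * qf b c z)

theorem gw_eq_prod {n : ℕ} (b : OrthonormalBasis (Fin n) ℝ (E n)) (c : Fin n → ℝ) (z : E n) :
    gw b c z = ∏ i, Real.exp (-((n : ℝ) / 2 / (c i) ^ 2) * (b.repr z i) ^ 2) := by
  rw [gw, qf, ← Real.exp_sum, Finset.mul_sum]
  congr 1
  refine Finset.sum_congr rfl fun i _ => ?_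
  rw [b.repr_apply_apply, div_pow]
  ring

theorem integral_gauss_scale {n : ℕ} (hn : 1 ≤ n) {c : ℝ} (hc : 0 < c) :
    ∫ t : ℝ, Real.exp (-((n : ℝ) / 2 / c ^ 2) * t ^ 2) = c * Real.sqrt (2 * Real.pi) / Real.sqrt n := by
  rw [integral_gaussian]
  have hn' : (0 : ℝ) < n := by exact_mod_cast hn
  have h1 : Real.pi / ((n : ℝ) / 2 / c ^ 2) = c ^ 2 * (2 * Real.pi) / n := by
    field_simp
  rw [h1, Real.sqrt_div (by positivity), Real.sqrt_mul (by positivity), Real.sqrt_sq hc.le]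

theorem integral_gw {n : ℕ} (hn : 1 ≤ n) (b : OrthonormalBasis (Fin n) ℝ (E n)) (c : Fin n → ℝ)
    (hc : ∀ i, 0 < c i) :
    Integrable (gw b c) ∧
    ∫ z, gw b c z = ∏ i, (c i * Real.sqrt (2 * Real.pi) / Real.sqrt n) := by
  have hn' : (0 : ℝ) < n := by exact_mod_cast hn
  let g : Fin n → ℝ → ℝ := fun i t => Real.exp (-((n : ℝ) / 2 / (c i) ^ 2) * t ^ 2)
  have hgi : ∀ i, Integrable (g i) := fun i =>
    integrable_exp_neg_mul_sq (by have := hc i; positivity)
  have h1 : Integrable (fun t : Fin n → ℝ => ∏ i, g i (t i)) := Integrable.fintype_prod hgi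
  have h2 : ∫ t : Fin n → ℝ, ∏ i, g i (t i) = ∏ i, (c i * Real.sqrt (2 * Real.pi) / Real.sqrt n) := by
    rw [integral_fintype_prod_volume_eq_prod]
    exact Finset.prod_congr rfl fun i _ => integral_gauss_scale hn (hc i)
  have hm : MeasurePreserving (fun z : E n => (b.repr z).ofLp) (volume : Measure (E n))
      (volume : Measure (Fin n → ℝ)) :=
    (PiLp.volume_preserving_ofLp (Fin n)).comp b.measurePreserving_repr
  have hme : MeasurableEmbedding (fun z : E n => (b.repr z).ofLp) := by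
    have e1 : MeasurableEmbedding (fun z : E n => b.repr z) :=
      b.repr.toHomeomorph.measurableEmbedding
    exact (MeasurableEquiv.toLp 2 (Fin n → ℝ)).symm.measurableEmbedding.comp e1
  have he : gw b c = (fun t : Fin n → ℝ => ∏ i, g i (t i)) ∘ (fun z : E n => (b.repr z).ofLp) := by
    funext z
    rw [gw_eq_prod]
    rfl
  refine ⟨?_, ?_⟩
  · rw [he]
    exact (hm.integrable_comp_emb hme).2 h1
  · rw [← h2, he]
    exact hm.integral_comp hme (fun t : Fin n → ℝ => ∏ i, g i (t i))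

theorem qf_add_le {n : ℕ} (b : OrthonormalBasis (Fin n) ℝ (E n)) (c : Fin n → ℝ) (y w : E n) :
    qf b c (y + w) ≤ 2 * qf b c y + 2 * qf b c w := by
  unfold qf
  rw [Finset.mul_sum, Finset.mul_sum, ← Finset.sum_add_distrib]
  refine Finset.sum_le_sum fun i _ => ?_
  rw [inner_add_right, add_div]
  nlinarith [sq_nonneg (inner ℝ (b i) y / c i - inner ℝ (b i) w / c i)]

theorem sum_inner_sq {n : ℕ} (b : OrthonormalBasis (Fin n) ℝ (E n)) (w : E n) :
    ∑ i, (inner ℝ (b i) w) ^ 2 = ‖w‖ ^ 2 := by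
  have h := b.sum_sq_norm_inner_right w
  simpa [Real.norm_eq_abs, sq_abs] using h

theorem qf_le {n : ℕ} (b : OrthonormalBasis (Fin n) ℝ (E n)) (c : Fin n → ℝ) (δ : ℝ) (hδ : 0 < δ)
    (hc : ∀ i, δ ≤ c i) (w : E n) : qf b c w ≤ ‖w‖ ^ 2 / δ ^ 2 := by
  unfold qf
  rw [← sum_inner_sq b w, Finset.sum_div]
  refine Finset.sum_le_sum fun i _ => ?_
  rw [div_pow]
  have := hc i
  gcongr

/-- The quadratic form at the points of the slab. -/
theorem qf_slab {n : ℕ} (V : Submodule ℝ (E n)) (b : OrthonormalBasis (Fin n) ℝ (E n))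
    (hb : ∀ i : Fin n, Module.finrank ℝ V ≤ i.val → ∀ u ∈ V, inner ℝ (b i) u = 0)
    (ρ δ : ℝ) (hδ : 0 < δ) (hρ : 0 < ρ) (y : E n) (h1 : ‖y‖ ≤ ρ)
    (h2 : ‖y - V.starProjection y‖ ≤ δ) :
    qf b (sc (Module.finrank ℝ V) ρ δ) y ≤ 2 := by
  set d := Module.finrank ℝ V
  have h3 : ∀ i : Fin n, (inner ℝ (b i) y / sc d ρ δ i) ^ 2 ≤
      (inner ℝ (b i) y) ^ 2 / ρ ^ 2 + (inner ℝ (b i) (y - V.starProjection y)) ^ 2 / δ ^ 2 := by
    intro i
    by_cases hi : i.val < d
    · have : sc d ρ δ i = ρ := by simp [sc, hi]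
      rw [this, div_pow]
      have : 0 ≤ (inner ℝ (b i) (y - V.starProjection y)) ^ 2 / δ ^ 2 := by positivity
      linarith
    · have h4 : sc d ρ δ i = δ := by simp [sc, hi]
      rw [h4, div_pow]
      have h5 : inner ℝ (b i) (y - V.starProjection y) = inner ℝ (b i) y := by
        rw [inner_sub_right, hb i (not_lt.1 hi) _ (V.starProjection_apply_mem y), sub_zero]
      rw [h5]
      have : 0 ≤ (inner ℝ (b i) y) ^ 2 / ρ ^ 2 := by positivity
      linarith
  calc qf b (sc d ρ δ) y ≤ ∑ i, ((inner ℝ (b i) y) ^ 2 / ρ ^ 2 +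
        (inner ℝ (b i) (y - V.starProjection y)) ^ 2 / δ ^ 2) := Finset.sum_le_sum fun i _ => h3 i
    _ = ‖y‖ ^ 2 / ρ ^ 2 + ‖y - V.starProjection y‖ ^ 2 / δ ^ 2 := by
        rw [Finset.sum_add_distrib, ← Finset.sum_div, ← Finset.sum_div, sum_inner_sq, sum_inner_sq]
    _ ≤ 1 + 1 := by
        refine add_le_add ?_ ?_
        · rw [div_le_one (by positivity)]
          exact pow_le_pow_left₀ (norm_nonneg _) h1 2
        · rw [div_le_one (by positivity)]
          exact pow_le_pow_left₀ (norm_nonneg _) h2 2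
    _ = 2 := by norm_num

/-- The cube around an integer point. -/
def cube {n : ℕ} (x : Fin n → ℤ) : Set (E n) :=
  (fun z : E n => z.ofLp) ⁻¹' (Set.univ.pi fun i => Set.Ico ((x i : ℝ) - 1 / 2) ((x i : ℝ) + 1 / 2))

theorem measurableSet_cube {n : ℕ} (x : Fin n → ℤ) : MeasurableSet (cube x) := by
  unfold cube
  exact (PiLp.volume_preserving_ofLp (Fin n)).measurable
    (MeasurableSet.univ_pi fun i => measurableSet_Ico)

theorem volume_cube {n : ℕ} (x : Fin n → ℤ) : volume (cube x) = 1 := by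
  unfold cube
  have h := (PiLp.volume_preserving_ofLp (Fin n)).measure_preimage
    (MeasurableSet.univ_pi (fun i : Fin n =>
      (measurableSet_Ico : MeasurableSet (Set.Ico ((x i : ℝ) - 1 / 2) ((x i : ℝ) + 1 / 2))))).nullMeasurableSet
  rw [h, Real.volume_pi_Ico]
  norm_num

theorem cube_disjoint {n : ℕ} (x y : Fin n → ℤ) (h : x ≠ y) : Disjoint (cube x) (cube y) := by
  rw [Set.disjoint_left]
  intro z hz hz'
  apply h
  funext i
  have h1 : z.ofLp i ∈ Set.Ico ((x i : ℝ) - 1 / 2) ((x i : ℝ) + 1 / 2) := hz i (Set.mem_univ i)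
  have h2 : z.ofLp i ∈ Set.Ico ((y i : ℝ) - 1 / 2) ((y i : ℝ) + 1 / 2) := hz' i (Set.mem_univ i)
  obtain ⟨a1, a2⟩ := h1
  obtain ⟨b1, b2⟩ := h2
  have c1 : (x i : ℝ) < y i + 1 := by linarith
  have c2 : (y i : ℝ) < x i + 1 := by linarith
  have c3 : x i < y i + 1 := by exact_mod_cast c1
  have c4 : y i < x i + 1 := by exact_mod_cast c2
  omega

theorem cube_close {n : ℕ} (x : Fin n → ℤ) (z : E n) (hz : z ∈ cube x) :
    ‖z - toE x‖ ^ 2 ≤ (n : ℝ) / 4 := by
  rw [EuclideanSpace.norm_sq_eq]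
  calc ∑ i, ‖(z - toE x).ofLp i‖ ^ 2 ≤ ∑ _i : Fin n, (1 / 4 : ℝ) := by
        refine Finset.sum_le_sum fun i _ => ?_
        have h1 : z.ofLp i ∈ Set.Ico ((x i : ℝ) - 1 / 2) ((x i : ℝ) + 1 / 2) := hz i (Set.mem_univ i)
        obtain ⟨a1, a2⟩ := h1
        have h2 : (z - toE x).ofLp i = z.ofLp i - x i := by simp [toE]
        rw [h2, Real.norm_eq_abs, sq_abs]
        nlinarith
    _ = (n : ℝ) / 4 := by
        rw [Finset.sum_const, Finset.card_univ, Fintype.card_fin, nsmul_eq_mul]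
        ring

theorem finite_ball {n : ℕ} (ρ : ℝ) : {x : Fin n → ℤ | ‖toE x‖ ≤ ρ}.Finite := by
  have h : {x : Fin n → ℤ | ‖toE x‖ ≤ ρ} ⊆ Set.univ.pi fun _ => Set.Icc (-⌈ρ⌉) ⌈ρ⌉ := by
    intro x hx i _
    have h1 : ‖(toE x).ofLp i‖ ≤ ‖toE x‖ := PiLp.norm_apply_le (toE x) i
    have h2 : (toE x).ofLp i = (x i : ℝ) := by simp [toE]
    rw [h2, Real.norm_eq_abs] at h1
    have h3 : |(x i : ℝ)| ≤ ρ := h1.trans hx
    have h4 : |(x i : ℝ)| ≤ (⌈ρ⌉ : ℝ) := h3.trans (Int.le_ceil ρ)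
    have h5 : |x i| ≤ ⌈ρ⌉ := by exact_mod_cast h4
    exact abs_le.1 h5
  exact (Set.Finite.pi' fun _ => Set.finite_Icc _ _).subset (fun x hx i => h hx i (Set.mem_univ i))

theorem prod_sc {n : ℕ} (d : ℕ) (hd : d ≤ n) (ρ δ : ℝ) :
    ∏ i : Fin n, sc d ρ δ i = ρ ^ d * δ ^ (n - d) := by
  classical
  unfold sc
  rw [Finset.prod_ite, Finset.prod_const, Finset.prod_const]
  have h1 : (Finset.univ.filter fun i : Fin n => i.val < d).card = d := by
    rw [Fin.card_filter_val_lt]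
    omega
  have h2 : (Finset.univ.filter fun i : Fin n => ¬ i.val < d).card = n - d := by
    have := Finset.card_filter_add_card_filter_not (s := (Finset.univ : Finset (Fin n)))
      (p := fun i : Fin n => i.val < d)
    rw [h1, Finset.card_univ, Fintype.card_fin] at this
    omega
  rw [h1, h2]

theorem r1 : StmtR1 := by
  classical
  refine ⟨Real.exp (9 / 4) * Real.sqrt (2 * Real.pi), ?_, ?_⟩
  · have h1 : (1 : ℝ) ≤ Real.exp (9 / 4) := Real.one_le_exp (by norm_num)
    have h2 : (1 : ℝ) ≤ Real.sqrt (2 * Real.pi) := by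
      rw [Real.one_le_sqrt]
      have := Real.pi_gt_three
      linarith
    nlinarith
  intro n V ρ δ hn hδ hρ
  have hn' : (0 : ℝ) < n := by exact_mod_cast hn
  have hsn : (0 : ℝ) < Real.sqrt n := Real.sqrt_pos.2 hn'
  have hδ0 : 0 < δ := lt_of_lt_of_le hsn hδ
  have hρ0 : 0 < ρ := lt_of_lt_of_le hδ0 hρ
  set S : Set (Fin n → ℤ) :=
    {x : Fin n → ℤ | ‖toE x‖ ≤ ρ ∧ ‖toE x - V.starProjection (toE x)‖ ≤ δ} with hS
  have hfin : S.Finite := (finite_ball ρ).subset fun x hx => hx.1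
  refine ⟨hfin, ?_⟩
  set d := Module.finrank ℝ V with hd
  have hdn : d ≤ n := by
    have := Submodule.finrank_le V
    rwa [finrank_euclideanSpace_fin] at this
  obtain ⟨b, hb⟩ := exists_adapted V
  set c : Fin n → ℝ := sc d ρ δ with hc
  have hc1 : ∀ i, δ ≤ c i := by
    intro i
    simp only [hc, sc]
    split_ifs
    · exact hρ
    · exact le_rfl
  have hc0 : ∀ i, 0 < c i := fun i => lt_of_lt_of_le hδ0 (hc1 i)
  obtain ⟨hint, hval⟩ := integral_gw hn b c hc0
  -- the cubes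
  have hcube : ∀ x ∈ S, cube x ⊆ {z | Real.exp (-(9 / 4 * n)) ≤ gw b c z} := by
    intro x hx z hz
    have h1 : qf b c (toE x) ≤ 2 := qf_slab V b hb ρ δ hδ0 hρ0 (toE x) hx.1 hx.2
    have h2 : qf b c (z - toE x) ≤ 1 / 4 := by
      refine (qf_le b c δ hδ0 hc1 _).trans ?_
      have h3 := cube_close x z hz
      have h4 : (n : ℝ) ≤ δ ^ 2 := by
        calc (n : ℝ) = Real.sqrt n ^ 2 := (Real.sq_sqrt hn'.le).symm
          _ ≤ δ ^ 2 := pow_le_pow_left₀ hsn.le hδ 2
      rw [div_le_iff₀ (by positivity)]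
      linarith
    have h5 : qf b c z ≤ 9 / 2 := by
      have h6 := qf_add_le b c (toE x) (z - toE x)
      rw [add_sub_cancel] at h6
      linarith
    show Real.exp (-(9 / 4 * n)) ≤ gw b c z
    unfold gw
    apply Real.exp_le_exp.2
    nlinarith
  set F : Finset (Fin n → ℤ) := hfin.toFinset with hF
  have hU : volume (⋃ x ∈ F, cube x) = (F.card : ENNReal) := by
    rw [measure_biUnion_finset]
    · simp [volume_cube]
    · intro x _ y _ hxy
      exact cube_disjoint x y hxy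
    · intro x _
      exact measurableSet_cube x
  have hsub : (⋃ x ∈ F, cube x) ⊆ {z | Real.exp (-(9 / 4 * n)) ≤ gw b c z} := by
    intro z hz
    simp only [Set.mem_iUnion] at hz
    obtain ⟨x, hx, hz⟩ := hz
    exact hcube x ((Set.Finite.mem_toFinset hfin).1 hx) hz
  have hM := mul_meas_ge_le_integral_of_nonneg (μ := (volume : Measure (E n)))
    (f := gw b c) (Filter.Eventually.of_forall fun z => (Real.exp_pos _).le) hint
    (Real.exp (-(9 / 4 * n)))
  have hfinm : volume {z : E n | Real.exp (-(9 / 4 * n)) ≤ gw b c z} ≠ ⊤ := by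
    exact (hint.measure_ge_lt_top (Real.exp_pos _)).ne
  have hcard : (F.card : ℝ) ≤ volume.real {z : E n | Real.exp (-(9 / 4 * n)) ≤ gw b c z} := by
    have h1 : (F.card : ENNReal) ≤ volume {z : E n | Real.exp (-(9 / 4 * n)) ≤ gw b c z} := by
      rw [← hU]
      exact measure_mono hsub
    have h2 := ENNReal.toReal_mono hfinm h1
    simpa [Measure.real] using h2
  have hSF : (S.ncard : ℝ) = F.card := by
    rw [Set.ncard_eq_toFinset_card S hfin]
  rw [hSF]
  have hprod : ∏ i, (c i * Real.sqrt (2 * Real.pi) / Real.sqrt n) =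
      Real.sqrt (2 * Real.pi) ^ n * ρ ^ d * δ ^ (n - d) / Real.sqrt n ^ n := by
    rw [Finset.prod_div_distrib, Finset.prod_mul_distrib, prod_sc d hdn]
    simp only [Finset.prod_const, Finset.card_univ, Fintype.card_fin]
    ring
  have h7 : Real.exp (-(9 / 4 * n)) * (F.card : ℝ) ≤
      Real.sqrt (2 * Real.pi) ^ n * ρ ^ d * δ ^ (n - d) / Real.sqrt n ^ n := by
    rw [← hprod, ← hval]
    refine le_trans ?_ hM
    exact mul_le_mul_of_nonneg_left hcard (Real.exp_pos _).le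
  have h8 : (Real.exp (9 / 4)) ^ n * Real.exp (-(9 / 4 * n)) = 1 := by
    rw [← Real.exp_nat_mul, ← Real.exp_add]
    rw [show (n : ℝ) * (9 / 4) + -(9 / 4 * n) = 0 by ring, Real.exp_zero]
  calc (F.card : ℝ) = (Real.exp (9 / 4)) ^ n * (Real.exp (-(9 / 4 * n)) * F.card) := by
        rw [← mul_assoc, h8, one_mul]
    _ ≤ (Real.exp (9 / 4)) ^ n *
        (Real.sqrt (2 * Real.pi) ^ n * ρ ^ d * δ ^ (n - d) / Real.sqrt n ^ n) := by
        exact mul_le_mul_of_nonneg_left h7 (by positivity)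
    _ = (Real.exp (9 / 4) * Real.sqrt (2 * Real.pi)) ^ n * ρ ^ d * δ ^ (n - d) /
        Real.sqrt n ^ n := by
        rw [mul_pow]
        ring

end Pool.Agent.T6.H49.PF
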